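import Pool.Agent.K1H95.HM.Sur
import Pool.Agent.Y159.QS.Fin

/-!
# The `H`-moments of the class groups of quadratic fields, for every finite abelian `p`-group `H`, also over short
# intervals of discriminants

Let `H` be the product of the cyclic groups of orders `p ^ e i`, `i < r`. The saving over the trivial bound depends on all
the factors of `H`. Proof: a surjection onto `H` is a family of homomorphisms to the cyclic factors, whose number is the
number of the elements of the class group killed by `p ^ e i`; the moments of order `r` of these numbers are bounded in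
the library; Hoelder's inequality.
-/

set_option autoImplicit false

namespace Pool.Agent.Results.MP_0f260b_nt.MomentsShortIntervals

open NumberField

/-- `#Sur(Cl(K)[p^∞], H)` for the group `H`, the product of the cyclic groups of orders `p ^ e i`. -/
noncomputable def numSur (K : Type) [Field K] [NumberField K] (p : ℕ) {r : ℕ} (e : Fin r → ℕ) : ℕ :=
  Nat.card {φ : CommGroup.primaryComponent (ClassGroup (𝓞 K)) p →* (∀ i : Fin r, Multiplicative (ZMod (p ^ e i))) //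
    Function.Surjective φ}

/-- **The `H`-moments of the class groups of quadratic fields.** Let `p` be a prime, `r ≥ 1`, `H` the product of the cyclic
groups of orders `p ^ e i`, `i < r`, and `ε > 0`. There is a constant `C` such that:

1. if `7 r ≤ 2 p ^ e i` for all `i`: for all `X ≥ 1` and quadratic fields `K_D` of discriminant `D`, where `D` runs through a
   finite set `S` with `|D| ≤ X`, `∑_{D ∈ S} #Sur(Cl(K_D)[p^∞], H) ≤ C X ^ (1 + r / 2 - ∑ i, 3 / (2 (p ^ e i + r)) + ε)`;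
2. for all `1 ≤ L ≤ X` with `(L √X) ^ (3 r / (p ^ e i + r)) ≤ L` for all `i` and `X ≤ |D| ≤ X + L` for `D ∈ S`,
   `∑_{D ∈ S} #Sur(Cl(K_D)[p^∞], H) ≤ C X ^ ε L ∏ i, √X / (L √X) ^ (1 / (p ^ e i + r))`. -/
theorem result (p : ℕ) (hp : p.Prime) (r : ℕ) (hr : 1 ≤ r) (e : Fin r → ℕ) (ε : ℝ) (hε : 0 < ε) :
    ∃ C : ℝ, 0 < C ∧
      ((∀ i, 7 * r ≤ 2 * p ^ e i) → ∀ X : ℝ, 1 ≤ X →
        ∀ (S : Finset ℤ) (K : ℤ → Type) [∀ D, Field (K D)] [∀ D, NumberField (K D)],
        (∀ D ∈ S, |(D : ℝ)| ≤ X ∧ Module.finrank ℚ (K D) = 2 ∧ NumberField.discr (K D) = D) →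
        ∑ D ∈ S, (numSur (K D) p e : ℝ) ≤
          C * X ^ (1 + (r : ℝ) / 2 - ∑ i, 3 / (2 * ((p : ℝ) ^ e i + r)) + ε)) ∧
      (∀ X L : ℝ, 1 ≤ L → L ≤ X → (∀ i, (L * √X) ^ (3 * (r : ℝ) / ((p : ℝ) ^ e i + r)) ≤ L) →
        ∀ (S : Finset ℤ) (K : ℤ → Type) [∀ D, Field (K D)] [∀ D, NumberField (K D)],
        (∀ D ∈ S, (X ≤ |(D : ℝ)| ∧ |(D : ℝ)| ≤ X + L) ∧ Module.finrank ℚ (K D) = 2 ∧
          NumberField.discr (K D) = D) →
        ∑ D ∈ S, (numSur (K D) p e : ℝ) ≤
          C * (X ^ ε * L) * ∏ i, (√X / (L * √X) ^ (1 / ((p : ℝ) ^ e i + r)))) := by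
  have hr0 : (0 : ℝ) < r := by exact_mod_cast hr
  have hrr : (r : ℝ) ≠ 0 := hr0.ne'
  have hpe : ∀ i, 1 ≤ p ^ e i := fun i => Nat.one_le_pow _ _ hp.pos
  have hpc : ∀ i, ((p ^ e i : ℕ) : ℝ) = (p : ℝ) ^ e i := fun i => by push_cast; rfl
  choose C1 hC1 h1 using fun i => Pool.Agent.Y159.QS.short' (p ^ e i) r (hpe i) hr ε hε
  have hshort : ∀ X L : ℝ, 1 ≤ L → L ≤ X → (∀ i, (L * √X) ^ (3 * (r : ℝ) / ((p : ℝ) ^ e i + r)) ≤ L) →
      ∀ (S : Finset ℤ) (K : ℤ → Type) [∀ D, Field (K D)] [∀ D, NumberField (K D)],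
      (∀ D ∈ S, (X ≤ |(D : ℝ)| ∧ |(D : ℝ)| ≤ X + L) ∧ Module.finrank ℚ (K D) = 2 ∧
        NumberField.discr (K D) = D) →
      ∑ D ∈ S, (numSur (K D) p e : ℝ) ≤
        (∏ i, C1 i ^ (1 / (r : ℝ))) * (X ^ ε * L) * ∏ i, (√X / (L * √X) ^ (1 / ((p : ℝ) ^ e i + r))) := by
    intro X L hL hLX hc S K _ _ hS
    have hX : 0 < X := by linarith
    have hL0 : 0 < L := by linarith
    have hsX : 0 < √X := Real.sqrt_pos.2 hX
    have hg : ∀ i, 0 < √X / (L * √X) ^ (1 / ((p : ℝ) ^ e i + r)) := fun i =>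
      div_pos hsX (Real.rpow_pos_of_pos (mul_pos hL0 hsX) _)
    have hA : 0 < X ^ ε * L := mul_pos (Real.rpow_pos_of_pos hX _) hL0
    refine (Pool.Agent.K1H95.HM.sum_sur_le S K p hp hr e
      (fun i => C1 i * (X ^ ε * L) * (√X / (L * √X) ^ (1 / ((p : ℝ) ^ e i + r))) ^ r)
      (fun i => mul_pos (mul_pos (hC1 i) hA) (pow_pos (hg i) _)) (fun i => ?_)).trans ?_
    · have h2 := h1 i X L hL hLX (by rw [hpc]; exact hc i) S K hS
      rw [hpc] at h2
      refine h2.trans (le_of_eq ?_)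
      ring
    · rw [Pool.Agent.K1H95.HM.prod_short r hr C1 _ (X ^ ε * L) hC1 (fun i => (hg i).le) hA.le]
  have hCs : 0 < ∏ i, C1 i ^ (1 / (r : ℝ)) := Finset.prod_pos fun i _ => Real.rpow_pos_of_pos (hC1 i) _
  by_cases hcond : ∀ i, 7 * r ≤ 2 * p ^ e i
  · choose C2 hC2 h2 using fun i => Pool.Agent.Y159.QS.full (p ^ e i) r hr (hcond i) ε hε
    have hCf : 0 < ∏ i, C2 i ^ (1 / (r : ℝ)) := Finset.prod_pos fun i _ => Real.rpow_pos_of_pos (hC2 i) _
    refine ⟨max (∏ i, C2 i ^ (1 / (r : ℝ))) (∏ i, C1 i ^ (1 / (r : ℝ))), lt_max_of_lt_left hCf, ?_, ?_⟩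
    · intro _ X hX S K _ _ hS
      have hX0 : 0 < X := by linarith
      have h3 : ∑ D ∈ S, (numSur (K D) p e : ℝ) ≤ (∏ i, C2 i ^ (1 / (r : ℝ))) *
          X ^ (1 + (r : ℝ) / 2 - ∑ i, 3 / (2 * ((p : ℝ) ^ e i + r)) + ε) := by
        refine (Pool.Agent.K1H95.HM.sum_sur_le S K p hp hr e
          (fun i => C2 i * X ^ (1 + (r : ℝ) / 2 - 3 * (r : ℝ) / (2 * ((p : ℝ) ^ e i + r)) + ε))
          (fun i => mul_pos (hC2 i) (Real.rpow_pos_of_pos hX0 _)) (fun i => ?_)).trans ?_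
        · have h4 := h2 i X hX S K hS
          rw [hpc] at h4
          exact h4
        · rw [Pool.Agent.K1H95.HM.prod_full r C2 _ X hC2 hX0]
          refine le_of_eq ?_
          congr 2
          rw [Finset.sum_add_distrib, Finset.sum_sub_distrib, Finset.sum_const, Finset.sum_const,
            Finset.card_univ, Fintype.card_fin, nsmul_eq_mul, nsmul_eq_mul]
          have h5 : ∑ i, 3 * (r : ℝ) / (2 * ((p : ℝ) ^ e i + r)) = r * ∑ i, 3 / (2 * ((p : ℝ) ^ e i + r)) := by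
            rw [Finset.mul_sum]
            exact Finset.sum_congr rfl fun i _ => by ring
          rw [h5]
          field_simp
      refine h3.trans ?_
      gcongr
      exact le_max_left _ _
    · intro X L hL hLX hc S K _ _ hS
      refine (hshort X L hL hLX hc S K hS).trans ?_
      have hX : 0 < X := by linarith
      have hL0 : 0 < L := by linarith
      have hg : 0 ≤ ∏ i, (√X / (L * √X) ^ (1 / ((p : ℝ) ^ e i + r))) :=
        Finset.prod_nonneg fun i _ => by positivity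
      refine mul_le_mul_of_nonneg_right ?_ hg
      refine mul_le_mul_of_nonneg_right (le_max_right _ _) (by positivity)
  · exact ⟨_, hCs, fun h => absurd h hcond, hshort⟩

end Pool.Agent.Results.MP_0f260b_nt.MomentsShortIntervals
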