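import Pool.Agent.K1H95.HM.Sur
import Pool.Agent.Y159.TQ.Fin
import Pool.Agent.Y542.TQ.Sup
import Pool.Agent.Y971.TQ.Rep

/-!
# The `H`-moments of the class groups of the quadratic fields with discriminant `a t² + b t + c`, for every finite abelian
# `p`-group `H`

Proof: as for all discriminants (`MomentsShortIntervals`), with the moments of the torsion over these thin families.
-/

set_option autoImplicit false

namespace Pool.Agent.Results.MP_0f260b_nt.MomentsThinFamilies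

open NumberField

/-- `#Sur(Cl(K)[p^∞], H)` for the group `H`, the product of the cyclic groups of orders `p ^ e i`. -/
noncomputable def numSur (K : Type) [Field K] [NumberField K] (p : ℕ) {r : ℕ} (e : Fin r → ℕ) : ℕ :=
  Nat.card {φ : CommGroup.primaryComponent (ClassGroup (𝓞 K)) p →* (∀ i : Fin r, Multiplicative (ZMod (p ^ e i))) //
    Function.Surjective φ}

/-- **The `H`-moments of the class groups of quadratic fields in thin families.** Let `p` be a prime, `r ≥ 1`, `H` the product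
of the cyclic groups of orders `p ^ e i`, `i < r`, `ε > 0`, `a ≠ 0`, `b`, `c` integers with `b² - 4 a c ≠ 0`. There is a constant
`C` such that, for quadratic fields `K_t` of discriminant `a t² + b t + c`, where `t` runs through a finite set `S` of integers:

1. if `5 r ≤ p ^ e i` for all `i`, `T ≥ 1` and `|t| ≤ T` for `t ∈ S`, then
   `∑_{t ∈ S} #Sur(Cl(K_t)[p^∞], H) ≤ C T ^ (1 + r - ∑ i, 2 / (p ^ e i + r) + ε)`;
2. if `1 ≤ L ≤ N`, `(L N) ^ (3 r / (p ^ e i + r)) ≤ L` for all `i` and `N ≤ |t| ≤ N + L` for `t ∈ S`, then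
   `∑_{t ∈ S} #Sur(Cl(K_t)[p^∞], H) ≤ C N ^ ε L ∏ i, N / (L N) ^ (1 / (p ^ e i + r))`. -/
theorem result (p : ℕ) (hp : p.Prime) (r : ℕ) (hr : 1 ≤ r) (e : Fin r → ℕ) (ε : ℝ) (hε : 0 < ε)
    (a b c : ℤ) (ha : a ≠ 0) (hdisc : b ^ 2 - 4 * a * c ≠ 0) : ∃ C : ℝ, 0 < C ∧
      ((∀ i, 5 * r ≤ p ^ e i) → ∀ T : ℝ, 1 ≤ T →
        ∀ (S : Finset ℤ) (K : ℤ → Type) [∀ t, Field (K t)] [∀ t, NumberField (K t)],
        (∀ t ∈ S, |(t : ℝ)| ≤ T ∧ Module.finrank ℚ (K t) = 2 ∧
          NumberField.discr (K t) = a * t ^ 2 + b * t + c) →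
        ∑ t ∈ S, (numSur (K t) p e : ℝ) ≤
          C * T ^ (1 + (r : ℝ) - ∑ i, 2 / ((p : ℝ) ^ e i + r) + ε)) ∧
      (∀ N L : ℝ, 1 ≤ L → L ≤ N → (∀ i, (L * N) ^ (3 * (r : ℝ) / ((p : ℝ) ^ e i + r)) ≤ L) →
        ∀ (S : Finset ℤ) (K : ℤ → Type) [∀ t, Field (K t)] [∀ t, NumberField (K t)],
        (∀ t ∈ S, (N ≤ |(t : ℝ)| ∧ |(t : ℝ)| ≤ N + L) ∧ Module.finrank ℚ (K t) = 2 ∧
          NumberField.discr (K t) = a * t ^ 2 + b * t + c) →
        ∑ t ∈ S, (numSur (K t) p e : ℝ) ≤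
          C * (N ^ ε * L) * ∏ i, (N / (L * N) ^ (1 / ((p : ℝ) ^ e i + r)))) := by
  have hr0 : (0 : ℝ) < r := by exact_mod_cast hr
  have hrr : (r : ℝ) ≠ 0 := hr0.ne'
  have hpe : ∀ i, 1 ≤ p ^ e i := fun i => Nat.one_le_pow _ _ hp.pos
  have hpc : ∀ i, ((p ^ e i : ℕ) : ℝ) = (p : ℝ) ^ e i := fun i => by push_cast; rfl
  have hrep := Pool.Agent.Y971.TQ.rep
  have hsup := Pool.Agent.Y542.TQ.sup
  choose C1 hC1 h1 using fun i => Pool.Agent.Y159.TQ.short_t' hrep hsup a b c ha hdisc (p ^ e i) r (hpe i) hr ε hε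
  have hshort : ∀ N L : ℝ, 1 ≤ L → L ≤ N → (∀ i, (L * N) ^ (3 * (r : ℝ) / ((p : ℝ) ^ e i + r)) ≤ L) →
      ∀ (S : Finset ℤ) (K : ℤ → Type) [∀ t, Field (K t)] [∀ t, NumberField (K t)],
      (∀ t ∈ S, (N ≤ |(t : ℝ)| ∧ |(t : ℝ)| ≤ N + L) ∧ Module.finrank ℚ (K t) = 2 ∧
        NumberField.discr (K t) = a * t ^ 2 + b * t + c) →
      ∑ t ∈ S, (numSur (K t) p e : ℝ) ≤
        (∏ i, C1 i ^ (1 / (r : ℝ))) * (N ^ ε * L) * ∏ i, (N / (L * N) ^ (1 / ((p : ℝ) ^ e i + r))) := by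
    intro N L hL hLN hc S K _ _ hS
    have hN : 0 < N := by linarith
    have hL0 : 0 < L := by linarith
    have hg : ∀ i, 0 < N / (L * N) ^ (1 / ((p : ℝ) ^ e i + r)) := fun i =>
      div_pos hN (Real.rpow_pos_of_pos (mul_pos hL0 hN) _)
    have hA : 0 < N ^ ε * L := mul_pos (Real.rpow_pos_of_pos hN _) hL0
    refine (Pool.Agent.K1H95.HM.sum_sur_le S K p hp hr e
      (fun i => C1 i * (N ^ ε * L) * (N / (L * N) ^ (1 / ((p : ℝ) ^ e i + r))) ^ r)
      (fun i => mul_pos (mul_pos (hC1 i) hA) (pow_pos (hg i) _)) (fun i => ?_)).trans ?_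
    · have h2 := h1 i N L hL hLN (by rw [hpc]; exact hc i) S K hS
      rw [hpc] at h2
      refine h2.trans (le_of_eq ?_)
      ring
    · rw [Pool.Agent.K1H95.HM.prod_short r hr C1 _ (N ^ ε * L) hC1 (fun i => (hg i).le) hA.le]
  have hCs : 0 < ∏ i, C1 i ^ (1 / (r : ℝ)) := Finset.prod_pos fun i _ => Real.rpow_pos_of_pos (hC1 i) _
  by_cases hcond : ∀ i, 5 * r ≤ p ^ e i
  · choose C2 hC2 h2 using fun i =>
      Pool.Agent.Y159.TQ.full_t hrep hsup a b c ha hdisc (p ^ e i) r hr (hcond i) ε hε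
    have hCf : 0 < ∏ i, C2 i ^ (1 / (r : ℝ)) := Finset.prod_pos fun i _ => Real.rpow_pos_of_pos (hC2 i) _
    refine ⟨max (∏ i, C2 i ^ (1 / (r : ℝ))) (∏ i, C1 i ^ (1 / (r : ℝ))), lt_max_of_lt_left hCf, ?_, ?_⟩
    · intro _ T hT S K _ _ hS
      have hT0 : 0 < T := by linarith
      have h3 : ∑ t ∈ S, (numSur (K t) p e : ℝ) ≤ (∏ i, C2 i ^ (1 / (r : ℝ))) *
          T ^ (1 + (r : ℝ) - ∑ i, 2 / ((p : ℝ) ^ e i + r) + ε) := by
        refine (Pool.Agent.K1H95.HM.sum_sur_le S K p hp hr e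
          (fun i => C2 i * T ^ (1 + (r : ℝ) - 2 * (r : ℝ) / ((p : ℝ) ^ e i + r) + ε))
          (fun i => mul_pos (hC2 i) (Real.rpow_pos_of_pos hT0 _)) (fun i => ?_)).trans ?_
        · have h4 := h2 i T hT S K hS
          rw [hpc] at h4
          exact h4
        · rw [Pool.Agent.K1H95.HM.prod_full r C2 _ T hC2 hT0]
          refine le_of_eq ?_
          congr 2
          rw [Finset.sum_add_distrib, Finset.sum_sub_distrib, Finset.sum_const, Finset.sum_const,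
            Finset.card_univ, Fintype.card_fin, nsmul_eq_mul, nsmul_eq_mul]
          have h5 : ∑ i, 2 * (r : ℝ) / ((p : ℝ) ^ e i + r) = r * ∑ i, 2 / ((p : ℝ) ^ e i + r) := by
            rw [Finset.mul_sum]
            exact Finset.sum_congr rfl fun i _ => by ring
          rw [h5]
          field_simp
      refine h3.trans ?_
      gcongr
      exact le_max_left _ _
    · intro N L hL hLN hc S K _ _ hS
      refine (hshort N L hL hLN hc S K hS).trans ?_
      have hN : 0 < N := by linarith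
      have hL0 : 0 < L := by linarith
      have hg : 0 ≤ ∏ i, (N / (L * N) ^ (1 / ((p : ℝ) ^ e i + r))) :=
        Finset.prod_nonneg fun i _ => by positivity
      refine mul_le_mul_of_nonneg_right ?_ hg
      refine mul_le_mul_of_nonneg_right (le_max_right _ _) (by positivity)
  · exact ⟨_, hCs, fun h => absurd h hcond, hshort⟩


end Pool.Agent.Results.MP_0f260b_nt.MomentsThinFamilies
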